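import Pool.Agent.Run7.h43.OT.Ten

set_option autoImplicit false
set_option linter.unusedSectionVars false

/-!
# The stabilizer of a de Rham-Betti class in the tensor power
-/

open Module Function TensorProduct Matrix

noncomputable section

namespace Run7.h43.OT

open Pool.Agent.Y102 Pool.Agent.W516.DR Pool.Agent.H204R3.GP Pool.Agent.W516.KC
  Pool.Agent.H204R3.SP Pool.Agent.TH119.MX Pool.Agent.R917 Pool.Agent.N208.AM Pool.Agent.N208.AD
  Pool.Agent.N208.CT

section Lin

variable {K : Type} [Field K] {n : ℕ}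

theorem exists_fun {u v : Fin n → K} (hu : u ≠ 0) (hv : v ≠ 0) :
    ∃ f : Fin n → K, f ⬝ᵥ u ≠ 0 ∧ f ⬝ᵥ v ≠ 0 := by
  obtain ⟨j, hj⟩ := Function.ne_iff.1 hu
  obtain ⟨i, hi⟩ := Function.ne_iff.1 hv
  rw [Pi.zero_apply] at hj hi
  by_cases h1 : v j = 0
  · by_cases h2 : u i = 0
    · refine ⟨Pi.single i 1 + Pi.single j 1, ?_, ?_⟩
      · rw [add_dotProduct, single_one_dotProduct, single_one_dotProduct, h2, zero_add]
        exact hj
      · rw [add_dotProduct, single_one_dotProduct, single_one_dotProduct, h1, add_zero]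
        exact hi
    · exact ⟨Pi.single i 1, by rwa [single_one_dotProduct], by rwa [single_one_dotProduct]⟩
  · exact ⟨Pi.single j 1, by rwa [single_one_dotProduct], by rwa [single_one_dotProduct]⟩

/-- The general linear group is transitive on the nonzero vectors. -/
theorem exists_T {u v : Fin n → K} (hu : u ≠ 0) (hv : v ≠ 0) :
    ∃ T T' : Matrix (Fin n) (Fin n) K, T * T' = 1 ∧ T *ᵥ u = v := by
  obtain ⟨f, hfu, hfv⟩ := exists_fun hu hv
  refine ⟨1 + (f ⬝ᵥ u)⁻¹ • vecMulVec (v - u) f, 1 - (f ⬝ᵥ v)⁻¹ • vecMulVec (v - u) f, ?_, ?_⟩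
  · have h1 : vecMulVec (v - u) f * vecMulVec (v - u) f =
        (f ⬝ᵥ v - f ⬝ᵥ u) • vecMulVec (v - u) f := by
      rw [Matrix.vecMulVec_mul_vecMulVec, dotProduct_sub]
      ext i j
      simp only [Matrix.smul_apply, vecMulVec_apply, Pi.smul_apply, smul_eq_mul]
      ring
    rw [add_mul, mul_sub, mul_sub, one_mul, one_mul, mul_one, smul_mul_smul_comm, h1, smul_smul]
    have h2 : (f ⬝ᵥ u)⁻¹ * (f ⬝ᵥ v)⁻¹ * (f ⬝ᵥ v - f ⬝ᵥ u) = (f ⬝ᵥ u)⁻¹ - (f ⬝ᵥ v)⁻¹ := by
      field_simp
    rw [h2, sub_smul]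
    abel
  · have h1 : vecMulVec (v - u) f *ᵥ u = (f ⬝ᵥ u) • (v - u) := by
      funext i
      rw [Matrix.mulVec, dotProduct, Pi.smul_apply, smul_eq_mul, dotProduct, Finset.sum_mul]
      refine Finset.sum_congr rfl fun j _ => ?_
      rw [vecMulVec_apply]
      ring
    rw [Matrix.add_mulVec, Matrix.one_mulVec, Matrix.smul_mulVec, h1, smul_smul,
      inv_mul_cancel₀ hfu, one_smul, add_sub_cancel]

end Lin

section Stab

variable {n : ℕ}

/-- The complex vector of a rational vector. -/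
def cxv (c : Fin n → ℚ) : Fin n → ℂ := fun b => (c b : ℂ)

/-- The stabilizer of a rational vector. -/
def stabG (c : Fin n → ℚ) : Subgroup (GL (Fin n) ℂ) where
  carrier := {x | (x : Matrix (Fin n) (Fin n) ℂ) *ᵥ cxv c = cxv c}
  one_mem' := by
    rw [Set.mem_ofPred_eq, Units.val_one, Matrix.one_mulVec]
  mul_mem' := by
    intro x y hx hy
    rw [Set.mem_ofPred_eq] at hx hy ⊢
    rw [Units.val_mul, ← Matrix.mulVec_mulVec, hy, hx]
  inv_mem' := by
    intro x hx
    rw [Set.mem_ofPred_eq] at hx ⊢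
    conv_lhs => rw [← hx]
    rw [Matrix.mulVec_mulVec, ← Units.val_mul, inv_mul_cancel, Units.val_one, Matrix.one_mulVec]

theorem mem_stabG {c : Fin n → ℚ} {x : GL (Fin n) ℂ} :
    x ∈ stabG c ↔ (x : Matrix (Fin n) (Fin n) ℂ) *ᵥ cxv c = cxv c := Iff.rfl

theorem stabG_alg (c : Fin n → ℚ) : ∃ I : Set (MvPolynomial (Fin n × Fin n) ℚ),
    ∀ x : GL (Fin n) ℂ, x ∈ stabG c ↔ ∀ p ∈ I,
      MvPolynomial.aeval (fun b : Fin n × Fin n => (x : Matrix (Fin n) (Fin n) ℂ) b.1 b.2) p
        = 0 := by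
  refine ⟨Set.range fun a : Fin n => (∑ b, MvPolynomial.X (a, b) * MvPolynomial.C (c b)) -
    MvPolynomial.C (c a), fun x => ?_⟩
  rw [mem_stabG, Set.forall_mem_range]
  have h1 : ∀ a, MvPolynomial.aeval (fun b : Fin n × Fin n =>
      (x : Matrix (Fin n) (Fin n) ℂ) b.1 b.2) ((∑ b, MvPolynomial.X (R := ℚ) (a, b) *
        MvPolynomial.C (c b)) - MvPolynomial.C (c a)) =
      ((x : Matrix (Fin n) (Fin n) ℂ) *ᵥ cxv c) a - cxv c a := by
    intro a
    rw [map_sub, map_sum]
    simp only [map_mul, MvPolynomial.aeval_X, MvPolynomial.aeval_C]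
    rfl
  constructor
  · intro h a
    rw [h1, h, sub_self]
  · intro h
    funext a
    have h2 := h a
    rw [h1, sub_eq_zero] at h2
    exact h2

/-- If all `exp (t N)` fix the vector, then `N` kills it. -/
theorem kill_of_exp {c : Fin n → ℚ} {N : Matrix (Fin n) (Fin n) ℚ}
    (h : ∀ t : ℂ, NormedSpace.exp (t • N.map fun q => (q : ℂ)) *ᵥ cxv c = cxv c) :
    N *ᵥ c = 0 := by
  set X := N.map fun q => (q : ℂ) with hX
  have h1 : X *ᵥ cxv c = 0 := by
    funext i
    have h2 : HasDerivAt (fun s : ℂ => ∑ j, ((1 : Matrix (Fin n) (Fin n) ℂ) * NormedSpace.exp (s • X)) i j * cxv c j)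
        (∑ j, ((1 : Matrix (Fin n) (Fin n) ℂ) * NormedSpace.exp ((0 : ℂ) • X) * X) i j * cxv c j) 0 := by
      have h3 := HasDerivAt.fun_sum (u := Finset.univ) fun j _ =>
        (hasDerivAt_entry 1 X i j (0 : ℂ)).mul_const (cxv c j)
      exact h3
    have h3 : (fun s : ℂ => ∑ j, ((1 : Matrix (Fin n) (Fin n) ℂ) * NormedSpace.exp (s • X)) i j * cxv c j) =
        fun _ => cxv c i := by
      funext s
      rw [Matrix.one_mul]
      exact congrFun (h s) i
    rw [h3] at h2
    have h4 := h2.unique (hasDerivAt_const (0 : ℂ) (cxv c i))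
    rw [zero_smul, NormedSpace.exp_zero, Matrix.one_mul, Matrix.one_mul] at h4
    exact h4
  funext i
  have h2 := congrFun h1 i
  have h3 : ((N *ᵥ c) i : ℂ) = (X *ᵥ cxv c) i := by
    rw [Matrix.mulVec, dotProduct, Matrix.mulVec, dotProduct]
    push_cast
    rfl
  rw [h2, Pi.zero_apply] at h3
  exact_mod_cast h3

end Stab

variable {g : ℕ} (A : AbVar g) {l : ℕ}
  (c : MultilinearMap ℚ (fun _ : Fin l × Fin 2 => A.H1) ℚ)

/-- The form with numbered variables. -/
def c4 : MultilinearMap ℚ (fun _ : Fin (l * 2) => A.H1) ℚ :=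
  c.domDomCongr finProdFinEquiv

theorem c4_apply (v : Fin (l * 2) → A.H1) : c4 A c v = c fun i => v (finProdFinEquiv i) := rfl

/-- The vector of the form. -/
def cv : Fin (nT g (l * 2)) → ℚ := fun b => c4 A c fun k => A.bas (eT g (l * 2) b k)

theorem c4_eq_sum : c4 A c = ∑ b, cv A c b • BT A (l * 2) b 0 := BT_sum A (c4 A c) 0

variable {A c}

theorem kills_of_dact {X : Module.End ℚ A.H1} (h : dact X (c4 A c) = 0) : Kills X c := by
  intro v
  have h1 := congrArg (fun F : MultilinearMap ℚ (fun _ : Fin (l * 2) => A.H1) ℚ =>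
    F fun k => v (finProdFinEquiv.symm k)) h
  simp only [dact_apply, _root_.zero_apply] at h1
  rw [← h1]
  refine Fintype.sum_equiv finProdFinEquiv _ _ fun k => ?_
  rw [c4_apply]
  congr 1
  funext i
  by_cases hi : i = k
  · subst hi
    rw [update_self, update_self, Equiv.symm_apply_apply]
  · rw [update_of_ne hi, update_of_ne fun h => hi (finProdFinEquiv.injective h),
      Equiv.symm_apply_apply]

/-- The vector of a de Rham-Betti class in terms of the de Rham basis. -/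
theorem drb_vec (hc : IsDeRhamBettiForm QBar A.dR tau l c) :
    ∃ α : Fin (nT g (l * 2)) → QBar,
      cxv (cv A c) = PT A (l * 2) l *ᵥ fun b => algebraMap QBar ℂ (α b) := by
  obtain ⟨a, ha⟩ := hc
  refine ⟨fun x => a fun i => sT g (eT g (l * 2) x (finProdFinEquiv i)), ?_⟩
  funext b
  have h0 : (tau ^ l : ℂ) ≠ 0 := pow_ne_zero _ AbVar.tau_ne
  have h1 := ha fun i => A.bas (eT g (l * 2) b (finProdFinEquiv i))
  rw [Matrix.mulVec, dotProduct]
  have h2 : ∑ J, algebraMap QBar ℂ (a J) * ∏ i, A.dR (J i)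
      (A.bas (eT g (l * 2) b (finProdFinEquiv i))) =
      ∑ x, algebraMap QBar ℂ (a fun i => sT g (eT g (l * 2) x (finProdFinEquiv i))) *
        ∏ k, Om A (eT g (l * 2) b k) (eT g (l * 2) x k) := by
    let e : Fin (nT g (l * 2)) ≃ (Fin l × Fin 2 → Fin g ⊕ Fin g) :=
      (eT g (l * 2)).trans (Equiv.arrowCongr finProdFinEquiv.symm (sT g))
    refine (Fintype.sum_equiv e _ _ fun x => ?_).symm
    have h3 : e x = fun i => sT g (eT g (l * 2) x (finProdFinEquiv i)) := rfl
    rw [h3]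
    congr 1
    exact (Equiv.prod_comp finProdFinEquiv fun k =>
      Om A (eT g (l * 2) b k) (eT g (l * 2) x k)).symm
  rw [h2] at h1
  have h3 : cxv (cv A c) b =
      ((c fun i => A.bas (eT g (l * 2) b (finProdFinEquiv i)) : ℚ) : ℂ) := rfl
  have h4 : algebraMap ℚ ℂ (c fun i => A.bas (eT g (l * 2) b (finProdFinEquiv i))) =
      cxv (cv A c) b := rfl
  rw [h4] at h1
  have h5 : cxv (cv A c) b = (tau ^ l : ℂ)⁻¹ * (tau ^ l * cxv (cv A c) b) := by
    rw [← mul_assoc, inv_mul_cancel₀ h0, one_mul]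
  rw [h5, h1, Finset.mul_sum]
  refine Finset.sum_congr rfl fun x _ => ?_
  unfold PT
  rw [Matrix.of_apply, zpow_natCast]
  ring

/-- The stabilizer of a nonzero de Rham-Betti class contains the periods, up to algebraic
numbers. -/
theorem exists_pt (hc : IsDeRhamBettiForm QBar A.dR tau l c) (h0 : cv A c ≠ 0) :
    ∃ T : Matrix (Fin (nT g (l * 2))) (Fin (nT g (l * 2))) ℂ, (∀ i j, IsAlgebraic ℚ (T i j)) ∧
      ∃ x ∈ stabG (cv A c), (x : Matrix _ _ ℂ) = PT A (l * 2) l * T := by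
  obtain ⟨α, hα⟩ := drb_vec hc
  have hα0 : α ≠ 0 := by
    rintro rfl
    apply h0
    funext b
    have h1 := congrFun hα b
    have h2 : (fun b => algebraMap QBar ℂ ((0 : Fin (nT g (l * 2)) → QBar) b)) = 0 := by
      funext b
      rw [Pi.zero_apply, map_zero]
      rfl
    rw [h2, Matrix.mulVec_zero, Pi.zero_apply] at h1
    have h3 : ((cv A c b : ℚ) : ℂ) = 0 := h1
    exact_mod_cast h3
  have hu0 : (fun b => algebraMap ℚ QBar (cv A c b)) ≠ 0 := by
    intro h
    apply h0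
    funext b
    exact (map_eq_zero (algebraMap ℚ QBar)).1 (congrFun h b)
  obtain ⟨T, T', h1, h2⟩ := exists_T hu0 hα0
  have h3 : T.map (algebraMap QBar ℂ) * T'.map (algebraMap QBar ℂ) = 1 := by
    rw [← Matrix.map_mul, h1, Matrix.map_one _ (map_zero _) (map_one _)]
  have h4 : T.map (algebraMap QBar ℂ) *ᵥ cxv (cv A c) = fun b => algebraMap QBar ℂ (α b) := by
    funext b
    rw [← h2]
    have h5 : ∀ x, cxv (cv A c) x = algebraMap QBar ℂ (algebraMap ℚ QBar (cv A c x)) :=
      fun x => rfl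
    rw [Matrix.mulVec, dotProduct, Matrix.mulVec, dotProduct, map_sum]
    refine Finset.sum_congr rfl fun x _ => ?_
    rw [map_mul, h5, Matrix.map_apply]
  refine ⟨T.map (algebraMap QBar ℂ), fun i j => ?_, ?_⟩
  · exact mem_algebraicClosure_iff.1 (T i j).2
  · have h5 : (PT A (l * 2) l * T.map (algebraMap QBar ℂ)) *
        (T'.map (algebraMap QBar ℂ) * PT' A (l * 2) l) = 1 := by
      rw [Matrix.mul_assoc, ← Matrix.mul_assoc _ (T'.map _), h3, Matrix.one_mul, PT_mul]
    refine ⟨⟨_, _, h5, mul_eq_one_comm.1 h5⟩, ?_, rfl⟩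
    rw [mem_stabG]
    change (PT A (l * 2) l * T.map (algebraMap QBar ℂ)) *ᵥ cxv (cv A c) = cxv (cv A c)
    rw [← Matrix.mulVec_mulVec, h4, ← hα]

theorem cv_ne_zero (h : c ≠ 0) : cv A c ≠ 0 := by
  intro h0
  apply h
  have h1 : c4 A c = 0 := by
    rw [c4_eq_sum, h0]
    exact Finset.sum_eq_zero fun b _ => by rw [Pi.zero_apply, zero_smul]
  refine MultilinearMap.ext fun v => ?_
  have h2 := congrArg (fun F : MultilinearMap ℚ (fun _ : Fin (l * 2) => A.H1) ℚ =>
    F fun k => v (finProdFinEquiv.symm k)) h1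
  simp only [c4_apply, _root_.zero_apply, Equiv.symm_apply_apply] at h2
  exact h2

/-- A form which is fixed by the Deligne torus is a Hodge class. -/
theorem hodge_of_fixed {N : Matrix (Fin (nT g (l * 2))) (Fin (nT g (l * 2))) ℝ}
    {Wt : Matrix (Fin (nT g (l * 2))) (Fin (nT g (l * 2))) ℚ}
    (hW : WRel (fun _ : Fin 1 => (l : ℤ)) (BT A (l * 2)) Wt)
    (hN : RelR (BT A (l * 2)) AbVar.JJ N)
    (h : ∀ z : ℂ, z ≠ 0 → NormedSpace.exp (KK Wt N z) *ᵥ cxv (cv A c) = cxv (cv A c)) :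
    IsHodgeTensor (A.per : A.H1 →+ (Fin g → ℂ)) c := by
  refine ⟨(A.Phi (c4 A c)).domDomCongr finProdFinEquiv.symm, fun v => ?_, fun z hz u => ?_⟩
  · rw [MultilinearMap.domDomCongr_apply]
    have h1 := A.Phi_per (c4 A c) fun k => v (finProdFinEquiv.symm k)
    refine h1.trans ?_
    rw [c4_apply]
    simp only [Equiv.symm_apply_apply]
  · have hz0 : z ≠ 0 := by
      rintro rfl
      rw [norm_zero] at hz
      exact zero_ne_one hz
    rw [MultilinearMap.domDomCongr_apply, MultilinearMap.domDomCongr_apply]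
    obtain ⟨u', hu'⟩ : ∃ u' : Fin (l * 2) → Fin g → ℂ,
      u' = fun k => u (finProdFinEquiv.symm k) := ⟨_, rfl⟩
    have e1 : (fun k => (fun i => z • u i) (finProdFinEquiv.symm k)) = fun k => z • u' k := by
      rw [hu']
    have e2 : (fun k => u (finProdFinEquiv.symm k)) = u' := hu'.symm
    rw [e1, e2]
    have hsum : ∀ y : Fin (l * 2) → Fin g → ℂ,
        A.Phi (c4 A c) y = ∑ b, (cv A c b : ℝ) * A.Phi (BT A (l * 2) b 0) y := by
      intro y
      have h2 : A.Phi (c4 A c) = ∑ b, (cv A c b : ℝ) • A.Phi (BT A (l * 2) b 0) := by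
        refine ext_lam_multi A fun v => ?_
        rw [_root_.sum_apply, A.Phi_per]
        conv_lhs => rw [c4_eq_sum, _root_.sum_apply, Rat.cast_sum]
        refine Finset.sum_congr rfl fun b _ => ?_
        rw [_root_.smul_apply, _root_.smul_apply, A.Phi_per, smul_eq_mul, smul_eq_mul,
          Rat.cast_mul]
      rw [h2, _root_.sum_apply]
      exact Finset.sum_congr rfl fun b _ => rfl
    have h3 : ((A.Phi (c4 A c) (fun k => z • u' k) : ℝ) : ℂ) =
        ((A.Phi (c4 A c) u' : ℝ) : ℂ) := by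
      rw [hsum, hsum]
      push_cast
      have h4 : ∀ a, ((A.Phi (BT A (l * 2) a 0) (fun k => z • u' k) : ℝ) : ℂ) =
          ∑ b, NormedSpace.exp (KK Wt N z) b a * (A.Phi (BT A (l * 2) b 0) u' : ℂ) := by
        intro a
        rw [phi_exp hW hN hz0 a 0 u', hz, Complex.ofReal_one, _root_.one_zpow, one_mul]
      have h5 : ∑ a, ((cv A c a : ℝ) : ℂ) *
          ((A.Phi (BT A (l * 2) a 0) (fun k => z • u' k) : ℝ) : ℂ) =
          ∑ b, ((NormedSpace.exp (KK Wt N z) *ᵥ cxv (cv A c)) b) *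
            (A.Phi (BT A (l * 2) b 0) u' : ℂ) := by
        simp only [h4, Finset.mul_sum]
        rw [Finset.sum_comm]
        refine Finset.sum_congr rfl fun b _ => ?_
        rw [Matrix.mulVec, dotProduct, Finset.sum_mul]
        refine Finset.sum_congr rfl fun a _ => ?_
        have h6 : cxv (cv A c) a = ((cv A c a : ℝ) : ℂ) := by
          unfold cxv
          push_cast
          rfl
        rw [h6]
        ring
      have h6 : ∀ b, ((cv A c b : ℚ) : ℂ) = ((cv A c b : ℝ) : ℂ) := fun b => by push_cast; rfl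
      simp only [h6]
      rw [h5, h z hz0]
      refine Finset.sum_congr rfl fun b _ => ?_
      rw [← h6]
      rfl
    exact_mod_cast h3

end Run7.h43.OT
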