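import Pool.Agent.N208.CT.Main
import Pool.Agent.N208.TS.Sq
import Pool.Agent.Y102.V15

set_option autoImplicit false
set_option linter.unusedSectionVars false

/-!
# The Casimir forms of the Lie algebras of the groups which contain the periods of a motive
-/

open Module Function TensorProduct Matrix

noncomputable section

namespace Run7.h43.OT

open Pool.Agent.Y102 Pool.Agent.W516.DR Pool.Agent.H204R3.GP Pool.Agent.W516.KC
  Pool.Agent.H204R3.SP Pool.Agent.TH119.MX Pool.Agent.R917 Pool.Agent.N208.AM Pool.Agent.N208.AD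
  Pool.Agent.N208.CT

variable {g : ℕ} {A : AbVar g} {𝔮 : Submodule ℚ (Module.End ℚ A.H1)}

/-- The Casimir form of a full subalgebra. -/
def casq (hq : A.Full 𝔮) : MultilinearMap ℚ (fun _ : Fin 2 × Fin 2 => A.H1) ℚ :=
  Pool.Agent.W516.KC2.casimir 𝔮 hq.trace A.om

theorem casq_kills (hq : A.Full 𝔮) {Z : Module.End ℚ A.H1} (hZ : IsSkew A.om Z)
    (hn : ∀ X ∈ 𝔮, Z * X - X * Z ∈ 𝔮) : Kills Z (casq hq) :=
  Pool.Agent.W516.KC2.casimir_kills 𝔮 hq.trace A.om hZ hn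

/-- The Casimir form of a full subalgebra which contains the components of the logarithmic
derivatives of the periods is a de Rham-Betti class. -/
theorem casq_drb (hq : A.Full 𝔮)
    (h0 : ∀ (D : Derivation QBar ℂ ℂ) (lam : ℂ →ₗ[ℚ] ℚ), X0 A.basis tau D lam ∈ 𝔮) :
    IsDeRhamBettiForm QBar A.dR tau 2 (casq hq) := by
  have h1 : IsDeRhamBettiForm QBar (A.basis : Fin g ⊕ Fin g → (A.H1 →ₗ[ℚ] ℂ)) tau 2
      (casq hq) := by
    refine (drb_iff A.basis AbVar.tau_ne (Module.finBasis ℚ A.H1) _).2 fun D lam => ?_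
    exact casq_kills hq (A.NA_skew (hq.le (h0 D lam))) fun Y hY => hq.br _ (h0 D lam) _ hY
  rwa [AbVar.coe_basis] at h1

theorem casq_split (hq : A.Full 𝔮) {Z : Module.End ℚ A.H1} (hZ : Z ∈ A.NA)
    (hk : Kills Z (casq hq)) : ∃ Y ∈ 𝔮, Z - Y ∈ A.CN := by
  obtain ⟨Y, hY, hcomm⟩ := Pool.Agent.W516.KC2.mem_of_kills_casimir 𝔮 hq.trace A.om
    hq.br (fun u hu => A.om_nondeg hu) (A.NA_skew hZ) hk
  exact ⟨Y, hY, A.NA.sub_mem hZ (hq.le hY), hq.comm _ hcomm⟩

/-- The Casimir form is killed by the centre. -/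
theorem casq_killed (hq : A.Full 𝔮) {X : Module.End ℚ A.H1} (hX : X ∈ A.CN) :
    Kills X (casq hq) :=
  casq_kills hq (A.NA_skew hX.1) fun Y hY => by
    rw [← hX.2 Y (hq.le hY), sub_self]
    exact 𝔮.zero_mem

/-- If the Casimir form of the full subalgebra is a Hodge class, then the subalgebra contains the
derived algebra. -/
theorem der_le_of_casq (hq : A.Full 𝔮)
    (h0 : ∀ (D : Derivation QBar ℂ ℂ) (lam : ℂ →ₗ[ℚ] ℚ), X0 A.basis tau D lam ∈ 𝔮)
    (h2 : IsHodgeTensor (A.per : A.H1 →+ (Fin g → ℂ)) (casq hq)) : der A.NA ≤ der 𝔮 := by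
  have h1 := casq_drb hq h0
  have h3 : ∀ Z ∈ A.NA, ∃ Y ∈ 𝔮, Z - Y ∈ A.CN := fun Z hZ =>
    casq_split hq hZ (hZ 2 _ h2 h1)
  refine Submodule.span_le.2 ?_
  rintro _ ⟨X, hX, Y, hY, rfl⟩
  obtain ⟨X', hX', hZ⟩ := h3 X hX
  obtain ⟨Y', hY', hZ'⟩ := h3 Y hY
  obtain ⟨Z, rfl⟩ : ∃ Z, X = X' + Z := ⟨X - X', by abel⟩
  obtain ⟨Z', rfl⟩ : ∃ Z', Y = Y' + Z' := ⟨Y - Y', by abel⟩
  rw [add_sub_cancel_left] at hZ hZ'
  have e1 := hZ.2 _ (hq.le hY')
  have e2 := hZ'.2 _ (hq.le hX')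
  have e3 := hZ.2 _ hZ'.1
  have h4 : (X' + Z) * (Y' + Z') - (Y' + Z') * (X' + Z) = X' * Y' - Y' * X' := by
    rw [add_mul, mul_add, mul_add, add_mul, mul_add, mul_add, ← e1, ← e3, e2]
    abel
  rw [h4]
  exact Submodule.subset_span ⟨X', hX', Y', hY', rfl⟩

/-- Conversely, the Casimir form of a subalgebra which contains the derived algebra is a Hodge
class. -/
theorem casq_hodge (hq : A.Full 𝔮) (h : der A.NA ≤ 𝔮) :
    IsHodgeTensor (A.per : A.H1 →+ (Fin g → ℂ)) (casq hq) :=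
  hodge_of_kills _ A.isRationalStructure _ fun Z hZ =>
    casq_kills hq (A.NA_skew (A.MA_le_NA hZ)) fun X hX =>
      h (Submodule.subset_span ⟨Z, A.MA_le_NA hZ, X, hq.le hX, rfl⟩)

/-- If the Casimir class of the Lie algebra of the de Rham-Betti classes is a Hodge class, then so are
the Casimir forms of all full subalgebras which contain the logarithmic derivatives of the periods. -/
theorem casq_of_cas (hc : IsHodgeTensor (A.per : A.H1 →+ (Fin g → ℂ)) A.cas) (hq : A.Full 𝔮)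
    (h0 : ∀ (D : Derivation QBar ℂ ℂ) (lam : ℂ →ₗ[ℚ] ℚ), X0 A.basis tau D lam ∈ 𝔮) :
    IsHodgeTensor (A.per : A.H1 →+ (Fin g → ℂ)) (casq hq) :=
  A.hodge_of_le (A.NA_le_of_cas hc) (casq_drb hq h0) fun _ hX => casq_killed hq hX

variable {s n : ℕ} {r : Fin s → ℕ} {B : Fin n → Ten A r} {w : Fin s → ℤ}
  {P : Matrix (Fin n) (Fin n) ℂ} {H : Set (Matrix (Fin n) (Fin n) ℂ)}
  {Wt : Matrix (Fin n) (Fin n) ℚ} {N : Matrix (Fin n) (Fin n) ℝ}

theorem X0_mem_qM (h : Mot w B P) (hW : WRel w B Wt) (hH : PtM P H)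
    (D : Derivation QBar ℂ ℂ) (lam : ℂ →ₗ[ℚ] ℚ) : X0 A.basis tau D lam ∈ qM B Wt H := by
  have h0 : X0 A.basis tau D lam ∈ A.NA := A.LA_le_NA (by
    rw [AbVar.LA_eq]
    exact X0_mem A.basis AbVar.tau_ne D lam)
  obtain ⟨N, hN⟩ := h.st _ h0
  exact ⟨h0, N, hN, _, log_mem h hH D lam hN hW⟩

/-- The one-parameter groups of a group give elements of its Lie algebra. -/
theorem stab_of_exp (hmul : ∀ x ∈ H, ∀ y ∈ H, x * y ∈ H) {X : Matrix (Fin n) (Fin n) ℂ}
    (h : ∀ t : ℂ, NormedSpace.exp (t • X) ∈ H) (d : ℕ) : Stab H d X := by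
  intro w hw
  rw [mem_Wt] at hw ⊢
  intro x hx
  have h1 := hasDerivAt_FF x X w 0
  have h2 : FF x X w = fun _ => 0 := funext fun t => hw _ (hmul _ hx _ (h t))
  rw [h2] at h1
  have h3 := h1.unique (hasDerivAt_const (0 : ℂ) (0 : ℂ))
  unfold FF at h3
  rwa [zero_smul, NormedSpace.exp_zero, Matrix.mul_one] at h3

/-- The class of a motive and a group. -/
def cMG (h : Mot w B P) (hW : WRel w B Wt) (hH : PtM P H) :
    MultilinearMap ℚ (fun _ : Fin 2 × Fin 2 => A.H1) ℚ := casq (qM_full h hW hH)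

theorem cMG_drb (h : Mot w B P) (hW : WRel w B Wt) (hH : PtM P H) :
    IsDeRhamBettiForm QBar A.dR tau 2 (cMG h hW hH) :=
  casq_drb _ fun D lam => X0_mem_qM h hW hH D lam

theorem cMG_killed (h : Mot w B P) (hW : WRel w B Wt) (hH : PtM P H) {X : Module.End ℚ A.H1}
    (hX : X ∈ A.CN) : Kills X (cMG h hW hH) := casq_killed _ hX

theorem der_le_dq (h : Mot w B P) (hW : WRel w B Wt) (hH : PtM P H)
    (hc : IsHodgeTensor (A.per : A.H1 →+ (Fin g → ℂ)) (cMG h hW hH)) : der A.NA ≤ dq B Wt H :=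
  der_le_of_casq _ (fun D lam => X0_mem_qM h hW hH D lam) hc

/-- The derived algebra acts on the motive through the Lie algebra of the group. -/
theorem exp_bracket (h : Mot w B P) (hW : WRel w B Wt) (hH : PtM P H)
    (hc : IsHodgeTensor (A.per : A.H1 →+ (Fin g → ℂ)) (cMG h hW hH)) {X Y : Module.End ℚ A.H1}
    (hX : X ∈ A.NA) (hY : Y ∈ A.NA) {M : Matrix (Fin n) (Fin n) ℚ}
    (hM : Rel B (X * Y - Y * X) M) (t : ℂ) :
    NormedSpace.exp (t • M.map fun q => (q : ℂ)) ∈ H := by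
  obtain ⟨-, M', h1, h2⟩ := der_mem h hW
    (der_le_dq h hW hH hc (Submodule.subset_span ⟨X, hX, Y, hY, rfl⟩))
  rw [hM.uniq h.li h1]
  exact exp_mem hH.grp fun d => (h2 d).smul t

/-- The converse. -/
theorem cMG_hodge (h : Mot w B P) (hW : WRel w B Wt) (hH : PtM P H)
    (hexp : ∀ X ∈ A.NA, ∀ Y ∈ A.NA, ∀ M : Matrix (Fin n) (Fin n) ℚ, Rel B (X * Y - Y * X) M →
      ∀ t : ℂ, NormedSpace.exp (t • M.map fun q => (q : ℂ)) ∈ H) :
    IsHodgeTensor (A.per : A.H1 →+ (Fin g → ℂ)) (cMG h hW hH) := by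
  refine casq_hodge _ (Submodule.span_le.2 ?_)
  rintro _ ⟨X, hX, Y, hY, rfl⟩
  have h1 := A.NA_bracket hX hY
  obtain ⟨M, hM⟩ := h.st _ h1
  refine ⟨h1, M, hM, 0, ?_⟩
  rw [zero_smul, add_zero]
  exact fun d => stab_of_exp hH.grp.mul (hexp X hX Y hY M hM) d

/-- Decomposition of the complex structure. -/
theorem dec_J (h : Mot w B P) (hN : RelR B AbVar.JJ N) :
    ∃ c ∈ spR B (cenA A : Set (Module.End ℚ A.H1)),
      ∃ d ∈ spR B (der A.NA : Set (Module.End ℚ A.H1)), N = c + d := by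
  obtain ⟨N', hN', t, X, M, h1, h2⟩ := exists_J h
  have h3 : N = N' := hN.uniq h.li hN'
  subst h3
  have h4 : N ∈ spR B (A.NA : Set (Module.End ℚ A.H1)) := by
    rw [h2]
    exact Submodule.sum_mem _ fun k _ => Submodule.smul_mem _ _ (mem_spR (h1 k).1 (h1 k).2)
  exact exists_dec h h4

/-- **The Deligne torus is in the group**, if the Casimir class is a Hodge class and the centre is
rigid. -/
theorem torus_rigid (h : Mot w B P) (hW : WRel w B Wt) (hH : PtM P H) (hrig : Rigid A)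
    (hc : IsHodgeTensor (A.per : A.H1 →+ (Fin g → ℂ)) (cMG h hW hH)) (hN : RelR B AbVar.JJ N)
    {z : ℂ} (hz : z ≠ 0) : NormedSpace.exp (KK Wt N z) ∈ H ∧
      HRel w B z (NormedSpace.exp (KK Wt N z)) := by
  obtain ⟨Nc, hNc, Nd, hNd, hNe⟩ := dec_J h hN
  have h5 := spR_mono (B := B) (fun x hx => der_le_dq h hW hH hc hx) hNd
  refine ⟨exp_mem hH.grp fun d => ?_, hrel_exp hW hN hz⟩
  have h6 : cxm N = cxm Nc + cxm Nd := by
    rw [hNe]
    ext i j
    simp [cxm]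
  unfold KK
  rw [h6]
  exact ((Wt_mem' h hW hH d).smul _).add
    (((stab_cen h hW hH hrig hNc d).add (stab_spR h hW h5 d)).smul _)

/-- **The Deligne torus is in the group**, if the Casimir class is a Hodge class and the centre acts
trivially on the motive. -/
theorem torus_nocentre (h : Mot w B P) (hW : WRel w B Wt) (hH : PtM P H)
    (hz0 : ∀ Z ∈ A.CN, Rel B Z 0)
    (hc : IsHodgeTensor (A.per : A.H1 →+ (Fin g → ℂ)) (cMG h hW hH)) (hN : RelR B AbVar.JJ N)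
    {z : ℂ} (hz : z ≠ 0) : NormedSpace.exp (KK Wt N z) ∈ H ∧
      HRel w B z (NormedSpace.exp (KK Wt N z)) := by
  obtain ⟨Nc, hNc, Nd, hNd, hNe⟩ := dec_J h hN
  have h5 := spR_mono (B := B) (fun x hx => der_le_dq h hW hH hc hx) hNd
  have h7 : Nc = 0 := by
    have h8 : spR B (cenA A : Set (Module.End ℚ A.H1)) ≤ ⊥ := by
      refine Submodule.span_le.2 ?_
      rintro _ ⟨Z, hZ, M, hM, rfl⟩
      have hZ' : Z ∈ A.CN := by rw [← cenA_eq]; exact hZ
      rw [hM.uniq h.li (hz0 Z hZ'), SetLike.mem_coe, Submodule.mem_bot]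
      exact rq_zero
    exact (Submodule.mem_bot ℝ).1 (h8 hNc)
  rw [h7, zero_add] at hNe
  subst hNe
  refine ⟨exp_mem hH.grp fun d => ?_, hrel_exp hW hN hz⟩
  unfold KK
  exact ((Wt_mem' h hW hH d).smul _).add ((stab_spR h hW h5 d).smul _)

end Run7.h43.OT
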