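import Pool.Agent.Run7.h43.OT.Core

set_option autoImplicit false
set_option linter.unusedSectionVars false

/-!
# The tensor powers of `h^1(A)`
-/

open Module Function TensorProduct Matrix

noncomputable section

namespace Run7.h43.OT

open Pool.Agent.Y102 Pool.Agent.W516.DR Pool.Agent.H204R3.GP Pool.Agent.W516.KC
  Pool.Agent.H204R3.SP Pool.Agent.TH119.MX Pool.Agent.R917 Pool.Agent.N208.AM Pool.Agent.N208.AD
  Pool.Agent.N208.CT

variable {g : ℕ} (A : AbVar g)

/-- The coordinate forms. -/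
def crd {m : ℕ} (J : Fin m → Fin (2 * g)) : MultilinearMap ℚ (fun _ : Fin m => A.H1) ℚ :=
  (MultilinearMap.mkPiAlgebra ℚ (Fin m) ℚ).compLinearMap fun k => A.bas.coord (J k)

theorem crd_apply {m : ℕ} (J : Fin m → Fin (2 * g)) (v : Fin m → A.H1) :
    crd A J v = ∏ k, A.bas.coord (J k) (v k) := rfl

theorem crd_bas {m : ℕ} (J J' : Fin m → Fin (2 * g)) :
    crd A J (fun k => A.bas (J' k)) = if J = J' then 1 else 0 := by
  rw [crd_apply]
  by_cases h : J = J'
  · subst h
    rw [if_pos rfl]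
    refine Finset.prod_eq_one fun k _ => ?_
    rw [Basis.coord_apply, Basis.repr_self, Finsupp.single_eq_same]
  · rw [if_neg h]
    obtain ⟨k, hk⟩ := Function.ne_iff.1 h
    refine Finset.prod_eq_zero (Finset.mem_univ k) ?_
    rw [Basis.coord_apply, Basis.repr_self, Finsupp.single_eq_of_ne hk]

theorem crd_sum {m : ℕ} (φ : MultilinearMap ℚ (fun _ : Fin m => A.H1) ℚ) :
    φ = ∑ J : Fin m → Fin (2 * g), φ (fun k => A.bas (J k)) • crd A J := by
  refine Basis.ext_multilinear (fun _ => A.bas) fun J => ?_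
  rw [_root_.sum_apply, Finset.sum_eq_single J]
  · rw [_root_.smul_apply, crd_bas, if_pos rfl, smul_eq_mul, mul_one]
  · intro J' _ h
    rw [_root_.smul_apply, crd_bas, if_neg h, smul_zero]
  · intro h
    exact absurd (Finset.mem_univ _) h

/-- The number of the coordinate forms. -/
abbrev nT (g m : ℕ) : ℕ := Fintype.card (Fin m → Fin (2 * g))

/-- The numbering of the coordinate forms. -/
def eT (g m : ℕ) : Fin (nT g m) ≃ (Fin m → Fin (2 * g)) := (Fintype.equivFin _).symm

/-- The basis of the tensor power. -/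
def BT (m : ℕ) : Fin (nT g m) → Ten A (fun _ : Fin 1 => m) := fun b _ => crd A (eT g m b)

theorem BT_sum {m : ℕ} (φ : MultilinearMap ℚ (fun _ : Fin m => A.H1) ℚ) (i : Fin 1) :
    φ = ∑ b, φ (fun k => A.bas (eT g m b k)) • BT A m b i := by
  conv_lhs => rw [crd_sum A φ]
  exact (Fintype.sum_equiv (eT g m) _ _ fun b => rfl).symm

theorem BT_bas {m : ℕ} (b a : Fin (nT g m)) (i : Fin 1) :
    BT A m b i (fun k => A.bas (eT g m a k)) = if b = a then 1 else 0 := by
  unfold BT
  rw [crd_bas]
  by_cases h : b = a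
  · rw [if_pos h, if_pos (congrArg _ h)]
  · rw [if_neg h, if_neg fun h' => h ((eT g m).injective h')]

theorem BT_li (m : ℕ) : LinearIndependent ℚ (BT A m) := by
  refine Fintype.linearIndependent_iff.2 fun c hc a => ?_
  have h1 := congrArg (fun F : Ten A (fun _ : Fin 1 => m) => F 0 (fun k => A.bas (eT g m a k))) hc
  simp only [Finset.sum_apply, Pi.smul_apply, _root_.sum_apply, _root_.smul_apply] at h1
  have h2 : ∀ b, c b • (BT A m b 0) (fun k => A.bas (eT g m a k)) = if b = a then c b else 0 := by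
    intro b
    rw [BT_bas]
    split_ifs <;> simp
  rw [Finset.sum_congr rfl fun b _ => h2 b, Finset.sum_ite_eq' Finset.univ a,
    if_pos (Finset.mem_univ a)] at h1
  exact h1

/-- The enumeration of the basis of the de Rham cohomology. -/
def sT (g : ℕ) : Fin (2 * g) ≃ Fin g ⊕ Fin g :=
  (finCongr (two_mul g)).trans finSumFinEquiv.symm

/-- The matrix of the periods of `h^1`. -/
def Om : Matrix (Fin (2 * g)) (Fin (2 * g)) ℂ := Matrix.of fun i j => A.dR (sT g j) (A.bas i)

/-- The complex coordinates. -/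
def cc (i : Fin (2 * g)) : A.H1 →ₗ[ℚ] ℂ := (Algebra.linearMap ℚ ℂ).comp (A.bas.coord i)

/-- The inverse matrix. -/
def Om' : Matrix (Fin (2 * g)) (Fin (2 * g)) ℂ :=
  Matrix.of fun j i => A.basis.repr (cc A i) (sT g j)

theorem Om_mul : Om A * Om' A = 1 := by
  ext k i
  rw [Matrix.mul_apply]
  have h1 := congrArg (fun f : A.H1 →ₗ[ℚ] ℂ => f (A.bas k)) (A.basis.sum_repr (cc A i))
  simp only [LinearMap.sum_apply, LinearMap.smul_apply, smul_eq_mul] at h1
  rw [AbVar.coe_basis] at h1
  have h2 : ∑ j, Om A k j * Om' A j i = ∑ x, (A.basis.repr (cc A i)) x * (A.dR x) (A.bas k) := by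
    refine Fintype.sum_equiv (sT g) _ _ fun j => ?_
    exact mul_comm _ _
  rw [h2, h1]
  unfold cc
  rw [LinearMap.comp_apply, Algebra.linearMap_apply, Basis.coord_apply, Basis.repr_self,
    Finsupp.single_apply, Matrix.one_apply]
  split_ifs <;> simp

/-- The matrix of the periods of the tensor power, with a Tate twist. -/
def PT (m : ℕ) (w : ℤ) : Matrix (Fin (nT g m)) (Fin (nT g m)) ℂ :=
  Matrix.of fun b a => (tau ^ w)⁻¹ * ∏ k, Om A (eT g m b k) (eT g m a k)

/-- The inverse matrix. -/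
def PT' (m : ℕ) (w : ℤ) : Matrix (Fin (nT g m)) (Fin (nT g m)) ℂ :=
  Matrix.of fun b a => tau ^ w * ∏ k, Om' A (eT g m b k) (eT g m a k)

theorem PT_mul (m : ℕ) (w : ℤ) : PT A m w * PT' A m w = 1 := by
  have h0 : (tau ^ w : ℂ) ≠ 0 := zpow_ne_zero _ AbVar.tau_ne
  ext b a
  rw [Matrix.mul_apply]
  have h1 : ∀ x, PT A m w b x * PT' A m w x a =
      ∏ k, Om A (eT g m b k) (eT g m x k) * Om' A (eT g m x k) (eT g m a k) := by
    intro x
    unfold PT PT'
    rw [Matrix.of_apply, Matrix.of_apply, Finset.prod_mul_distrib]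
    field_simp
  rw [Finset.sum_congr rfl fun x _ => h1 x]
  have h2 : ∑ x, ∏ k, Om A (eT g m b k) (eT g m x k) * Om' A (eT g m x k) (eT g m a k) =
      ∑ J : Fin m → Fin (2 * g), ∏ k, Om A (eT g m b k) (J k) * Om' A (J k) (eT g m a k) :=
    Fintype.sum_equiv (eT g m) _ _ fun x => rfl
  rw [h2, ← Fintype.prod_sum fun k y => Om A (eT g m b k) y * Om' A y (eT g m a k)]
  have h3 : ∀ k, ∑ y, Om A (eT g m b k) y * Om' A y (eT g m a k) =
      if eT g m b k = eT g m a k then 1 else 0 := by
    intro k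
    rw [← Matrix.mul_apply, Om_mul, Matrix.one_apply]
  rw [Finset.prod_congr rfl fun k _ => h3 k, Matrix.one_apply]
  by_cases h : b = a
  · subst h
    simp
  · rw [if_neg h]
    obtain ⟨k, hk⟩ := Function.ne_iff.1 fun h' => h ((eT g m).injective h')
    exact Finset.prod_eq_zero (Finset.mem_univ k) (if_neg hk)

theorem dR_bas (x : Fin g ⊕ Fin g) (v : A.H1) :
    A.dR x v = ∑ j, A.dR x (A.bas j) * (A.bas.coord j v : ℂ) := by
  conv_lhs => rw [← A.bas.sum_repr v, map_sum]
  refine Finset.sum_congr rfl fun j _ => ?_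
  rw [map_smul, Rat.smul_def, mul_comm]
  rfl

/-- **The tensor powers of `h^1(A)` are motives.** -/
theorem mot_T (m : ℕ) (w : ℤ) : Mot (fun _ : Fin 1 => w) (BT A m) (PT A m w) where
  li := BT_li A m
  st := fun X _ => ⟨Matrix.of fun b a => dact X (BT A m a 0) (fun k => A.bas (eT g m b k)),
    fun a i => by
      obtain rfl : i = 0 := Subsingleton.elim _ _
      exact BT_sum A (m := m) (dact X (BT A m a 0)) 0⟩
  wt := ⟨((m : ℚ) - 2 * w) • 1, fun a i => by
    rw [Finset.sum_eq_single a]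
    · rw [Matrix.smul_apply, Matrix.one_apply_eq, smul_eq_mul, mul_one]
    · intro b _ hb
      rw [Matrix.smul_apply, Matrix.one_apply_ne hb, smul_zero, zero_smul]
    · intro h
      exact absurd (Finset.mem_univ _) h⟩
  det := Matrix.det_ne_zero_of_right_inverse (PT_mul A m w)
  dR := by
    refine ⟨fun a _ J => if J = (fun k => sT g (eT g m a k)) then 1 else 0, fun a i J => ?_,
      fun a i v => ?_⟩
    · dsimp only
      split_ifs
      · exact isAlgebraic_one
      · exact isAlgebraic_zero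
    · have h0 : (tau ^ w : ℂ) ≠ 0 := zpow_ne_zero _ AbVar.tau_ne
      simp only [ite_mul, one_mul, zero_mul]
      rw [Finset.sum_ite_eq' Finset.univ, if_pos (Finset.mem_univ _)]
      have h1 : ∀ b, PT A m w b a * (BT A m b i v : ℂ) = (tau ^ w)⁻¹ *
          ∏ k, Om A (eT g m b k) (eT g m a k) * (A.bas.coord (eT g m b k) (v k) : ℂ) := by
        intro b
        have h2 : BT A m b i v = ∏ k, A.bas.coord (eT g m b k) (v k) := rfl
        rw [h2, Finset.prod_mul_distrib]
        unfold PT
        rw [Matrix.of_apply]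
        push_cast
        ring
      rw [Finset.sum_congr rfl fun b _ => h1 b, ← Finset.mul_sum, ← mul_assoc,
        mul_inv_cancel₀ h0, one_mul]
      have h2 : ∑ b, ∏ k, Om A (eT g m b k) (eT g m a k) *
          (A.bas.coord (eT g m b k) (v k) : ℂ) = ∑ J : Fin m → Fin (2 * g),
            ∏ k, Om A (J k) (eT g m a k) * (A.bas.coord (J k) (v k) : ℂ) :=
        Fintype.sum_equiv (eT g m) _ _ fun x => rfl
      rw [h2, ← Fintype.prod_sum fun k y => Om A y (eT g m a k) * (A.bas.coord y (v k) : ℂ)]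
      refine Finset.prod_congr rfl fun k _ => ?_
      rw [dR_bas]
      rfl

/-- A vector and its image under the derivation. -/
theorem kills_of_mulVec {m : ℕ} {φ : MultilinearMap ℚ (fun _ : Fin m => A.H1) ℚ}
    {X : Module.End ℚ A.H1} {M : Matrix (Fin (nT g m)) (Fin (nT g m)) ℚ} (hM : Rel (BT A m) X M)
    (h : M *ᵥ (fun b => φ (fun k => A.bas (eT g m b k))) = 0) : dact X φ = 0 := by
  conv_lhs => rw [BT_sum A φ 0, dact_sum]
  have h1 : ∀ b, dact X (φ (fun k => A.bas (eT g m b k)) • BT A m b 0) =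
      ∑ c, (M c b * φ (fun k => A.bas (eT g m b k))) • BT A m c 0 := by
    intro b
    rw [dact_smul', hM b 0, Finset.smul_sum]
    refine Finset.sum_congr rfl fun c _ => ?_
    rw [smul_smul]
    exact congrArg (· • BT A m c 0) (mul_comm _ _)
  rw [Finset.sum_congr rfl fun b _ => h1 b, Finset.sum_comm]
  refine Finset.sum_eq_zero fun c _ => ?_
  rw [← Finset.sum_smul]
  have h2 := congrFun h c
  rw [Matrix.mulVec, dotProduct] at h2
  rw [h2, Pi.zero_apply, zero_smul]

end Run7.h43.OT
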