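import Pool.Agent.Run7.h43.OT.Conv

set_option autoImplicit false
set_option linter.unusedSectionVars false

/-!
# Groups which contain the Deligne torus
-/

open Module Function TensorProduct Matrix

noncomputable section

namespace Run7.h43.OT

open Pool.Agent.Y102 Pool.Agent.W516.DR Pool.Agent.H204R3.GP Pool.Agent.W516.KC
  Pool.Agent.H204R3.SP Pool.Agent.TH119.MX Pool.Agent.R917 Pool.Agent.N208.AM Pool.Agent.N208.AD
  Pool.Agent.N208.CT

variable {g : ℕ} {A : AbVar g}

/-- A form which is killed by the components of the complex structure is a Hodge class. -/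
theorem hodge_of_J {m : ℕ} {ψ : MultilinearMap ℚ (fun _ : Fin m × Fin 2 => A.H1) ℚ}
    (h : ∀ f : ℝ →ₗ[ℚ] ℚ, Kills (A.cmpE f AbVar.JJ) ψ) :
    IsHodgeTensor (A.per : A.H1 →+ (Fin g → ℂ)) ψ := by
  refine ⟨A.Phi ψ, fun v => A.Phi_per ψ v, (invariant_iff _).2 fun u => ?_⟩
  have h1 : dact AbVar.JJ (A.Phi ψ) = 0 := by
    refine ext_lam_multi A fun v => ?_
    rw [dact_apply, _root_.zero_apply]
    apply exists_sep
    intro f
    rw [map_sum, ← h f v]
    refine Finset.sum_congr rfl fun k _ => ?_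
    rw [A.Phi_cmp]
    rfl
  have h2 := congrArg (fun F : MultilinearMap ℝ (fun _ : Fin m × Fin 2 => Fin g → ℂ) ℝ => F u) h1
  simp only [dact_apply, _root_.zero_apply] at h2
  exact h2

variable {s n : ℕ} {r : Fin s → ℕ} {B : Fin n → Ten A r} {w : Fin s → ℤ}
  {P : Matrix (Fin n) (Fin n) ℂ} {H : Set (Matrix (Fin n) (Fin n) ℂ)}
  {Wt : Matrix (Fin n) (Fin n) ℚ} {N : Matrix (Fin n) (Fin n) ℝ}

/-- The rational components of the complex structure act by the rational components of its
matrix. -/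
theorem rel_cmp (hN : RelR B AbVar.JJ N) (f : ℝ →ₗ[ℚ] ℚ) :
    Rel B (A.cmpE f AbVar.JJ) (N.map f) := by
  intro a i
  refine MultilinearMap.ext fun v => ?_
  have h1 := congrArg (fun F : MultilinearMap ℝ (fun _ : Fin (r i) => Fin g → ℂ) ℝ =>
    f (F fun k => A.per (v k))) (hN a i)
  simp only [dact_apply, _root_.sum_apply, _root_.smul_apply, smul_eq_mul, map_sum,
    A.Phi_per] at h1
  rw [dact_apply, _root_.sum_apply]
  have h2 : ∑ k, B a i (update v k (A.cmpE f AbVar.JJ (v k))) =
      ∑ k, f (A.Phi (B a i) (update (fun k => A.per (v k)) k (AbVar.JJ (A.per (v k))))) := by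
    refine Finset.sum_congr rfl fun k _ => ?_
    rw [A.Phi_cmp]
    rfl
  rw [h2, h1]
  refine Finset.sum_congr rfl fun b _ => ?_
  have h3 : N b a * ((B b i v : ℚ) : ℝ) = (B b i v) • N b a := by rw [Rat.smul_def, mul_comm]
  rw [h3, map_smul, _root_.smul_apply, Matrix.map_apply, smul_eq_mul, smul_eq_mul, mul_comm]

/-- The one-parameter groups of a group give elements of its Lie algebra. -/
theorem stab_of_circle (hmul : ∀ x ∈ H, ∀ y ∈ H, x * y ∈ H) {X : Matrix (Fin n) (Fin n) ℂ}
    (h : ∀ θ : ℝ, |θ| < 1 → NormedSpace.exp ((θ : ℂ) • X) ∈ H) (d : ℕ) : Stab H d X := by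
  intro w hw
  rw [mem_Wt] at hw ⊢
  intro x hx
  have h1 := (hasDerivAt_FF x X w ((0 : ℝ) : ℂ)).comp_ofReal
  have h2 : (fun θ : ℝ => FF x X w (θ : ℂ)) =ᶠ[nhds 0] fun _ => (0 : ℂ) := by
    have h3 : ∀ᶠ θ : ℝ in nhds 0, |θ| < 1 := by
      have := (continuous_abs.tendsto (0 : ℝ)).eventually_lt_const (u := 1) (by simp)
      exact this
    filter_upwards [h3] with θ hθ
    exact hw _ (hmul _ hx _ (h θ hθ))
  have h3 := h1.unique ((hasDerivAt_const (0 : ℝ) (0 : ℂ)).congr_of_eventuallyEq h2)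
  unfold FF at h3
  rwa [Complex.ofReal_zero, zero_smul, NormedSpace.exp_zero, Matrix.mul_one] at h3

theorem KK_circle {θ : ℝ} (hθ : |θ| < 1) :
    KK Wt N (Complex.exp (θ * Complex.I)) = (θ : ℂ) • cxm N := by
  have h1 : Complex.arg (Complex.exp (θ * Complex.I)) = θ := by
    rw [Complex.exp_mul_I]
    refine Complex.arg_cos_add_sin_mul_I ⟨?_, ?_⟩
    · have := (abs_lt.1 hθ).1
      linarith [Real.pi_gt_three]
    · have := (abs_lt.1 hθ).2
      linarith [Real.pi_gt_three]
  unfold KK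
  rw [h1, Complex.norm_exp_ofReal_mul_I, Real.log_one, Complex.ofReal_zero, zero_smul, zero_add]

/-- If the Deligne torus is in the group, then the components of the complex structure are in
the Lie algebra of the group. -/
theorem J_mem_qM (hH : PtM P H) (hN : RelR B AbVar.JJ N)
    (hz : ∀ z : ℂ, z ≠ 0 → NormedSpace.exp (KK Wt N z) ∈ H) (f : ℝ →ₗ[ℚ] ℚ) :
    A.cmpE f AbVar.JJ ∈ qM B Wt H := by
  refine ⟨A.MA_le_NA (A.J_mem f), _, rel_cmp hN f, 0, ?_⟩
  rw [zero_smul, add_zero]
  intro d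
  have h1 : Stab H d (cxm N) := stab_of_circle hH.grp.mul (fun θ hθ => by
    have h2 := hz _ (Complex.exp_ne_zero ((θ : ℂ) * Complex.I))
    rwa [KK_circle hθ] at h2) d
  have h2 := hH.grp.stab_map (lamF (f.comp (Complex.reLm.restrictScalars ℚ))) h1
  have h3 : (cxm N).map (lamF (f.comp (Complex.reLm.restrictScalars ℚ))) =
      (N.map f).map fun q => (q : ℂ) := by
    ext b c
    rw [Matrix.map_apply, Matrix.map_apply, Matrix.map_apply, lamF_apply]
    unfold cxm
    rw [Matrix.map_apply]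
    rfl
  rwa [h3] at h2

/-- If the Deligne torus is in the group, then the class of the motive and the group is a Hodge
class. -/
theorem hodge_of_torus (h : Mot w B P) (hW : WRel w B Wt) (hH : PtM P H)
    (hN : RelR B AbVar.JJ N) (hz : ∀ z : ℂ, z ≠ 0 → NormedSpace.exp (KK Wt N z) ∈ H) :
    IsHodgeTensor (A.per : A.H1 →+ (Fin g → ℂ)) (cMG h hW hH) := by
  refine hodge_of_J fun f => ?_
  have h1 := J_mem_qM hH hN hz f
  exact casq_kills (qM_full h hW hH) (A.NA_skew ((qM_full h hW hH).le h1)) fun X hX =>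
    (qM_full h hW hH).br _ h1 _ hX

/-- Coefficients of linear combinations are unique, also over the complex numbers. -/
theorem cx_uniq (hli : LinearIndependent ℚ B) {x : Fin n → ℂ}
    (hx : ∀ i (j : Fin (r i) → Fin (2 * g)),
      ∑ b, x b * (B b i (fun k => A.bas (j k)) : ℂ) = 0) : x = 0 := by
  have h1 : ∀ lam : ℂ →ₗ[ℚ] ℚ, (fun b => lam (x b)) = 0 := by
    intro lam
    have h2 : ∑ b, lam (x b) • B b = 0 := by
      funext i
      refine Basis.ext_multilinear (fun _ => A.bas) fun j => ?_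
      have h3 := congrArg lam (hx i j)
      rw [map_sum, map_zero] at h3
      rw [Finset.sum_apply, _root_.sum_apply, Pi.zero_apply, _root_.zero_apply, ← h3]
      refine Finset.sum_congr rfl fun b _ => ?_
      have h4 : x b * ((B b i (fun k => A.bas (j k)) : ℚ) : ℂ) =
          (B b i (fun k => A.bas (j k))) • x b := by rw [Rat.smul_def, mul_comm]
      rw [h4, map_smul, Pi.smul_apply, _root_.smul_apply, smul_eq_mul, smul_eq_mul, mul_comm]
    funext b
    exact Fintype.linearIndependent_iff.1 hli _ h2 b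
  funext b
  by_contra hb
  have hb' : x b ≠ 0 := hb
  let b0 := Basis.ofVectorSpace ℚ ℂ
  apply hb'
  have h2 : b0.repr (x b) = 0 := by
    ext k
    exact congrFun (h1 (b0.coord k)) b
  exact (map_eq_zero_iff _ b0.repr.injective).1 h2

/-- The matrix of the action of a complex number is unique. -/
theorem hrel_uniq (hli : LinearIndependent ℚ B) {z : ℂ} (hz : z ≠ 0)
    {R R' : Matrix (Fin n) (Fin n) ℂ} (h : HRel w B z R) (h' : HRel w B z R') : R = R' := by
  have h0 : ∀ i, (z * (starRingEnd ℂ) z) ^ (w i) ≠ 0 := fun i =>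
    zpow_ne_zero _ (mul_ne_zero hz ((map_ne_zero _).2 hz))
  ext b a
  have h1 : (fun b => R b a - R' b a) = 0 := by
    refine cx_uniq hli fun i j => ?_
    have h2 := (h a i j).symm.trans (h' a i j)
    have h3 := mul_left_cancel₀ (h0 i) h2
    simp only [sub_mul, Finset.sum_sub_distrib]
    rw [h3, sub_self]
  exact sub_eq_zero.1 (congrFun h1 b)

end Run7.h43.OT
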